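import Mathlib

/-!
# `𝔟_b^eq` cannot be placed below `𝔟` in the ten-value chain

In ZFC, `min (𝔟, cov(𝓜)) ≤ 𝔟_b^eq` for every `b` with `b n ≥ 2` for all `n`. So the chain of the question, in which
`𝔟_b^eq < 𝔟` and `𝔟_b^eq < cov(𝓜)`, is inconsistent.

Idea: let `F` be a family of fewer than `min (𝔟, cov(𝓜))` elements of `∏ b`. There is `h` in `∏ b` (a Cohen real over `F`)
which agrees with each element of `F` infinitely often. The functions that send `m` to the next place `k ≥ m` of
agreement of `f` and `h`, `f ∈ F`, are dominated by one function, which gives the interval partition.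
-/

set_option autoImplicit false

open Cardinal Filter MeasureTheory Set

namespace Pool.Agent.Results.MP_b3eba0_lc.NoSuchChain

noncomputable section

/-! ### Ideals and their cardinal invariants -/

/-- The Cantor space `2^ω`, with the product topology and the product sigma-algebra. -/
abbrev Cantor : Type := ℕ → Bool

/-- The product measure on `2^ω` of the uniform probability measures on `{0, 1}`. -/
def coin : Measure Cantor := Measure.infinitePi fun _ : ℕ => (PMF.uniformOfFintype Bool).toMeasure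

/-- The ideal `𝓝` of null sets. -/
def nullIdeal : Set (Set Cantor) := {A | coin A = 0}

/-- The ideal `𝓜` of meager sets. -/
def meagerIdeal : Set (Set Cantor) := {A | IsMeagre A}

/-- The sigma-ideal `𝓔` generated by the closed null sets: the sets covered by countably many closed null sets. -/
def closedNullIdeal : Set (Set Cantor) :=
  {A | ∃ C : ℕ → Set Cantor, (∀ n, IsClosed (C n) ∧ coin (C n) = 0) ∧ A ⊆ ⋃ n, C n}

/-- The additivity of a family `I` of subsets of `2^ω`: the least size of a subfamily whose union is not in `I`. -/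
def add (I : Set (Set Cantor)) : Cardinal := sInf {κ | ∃ S : Set (Set Cantor), S ⊆ I ∧ ⋃₀ S ∉ I ∧ #S = κ}

/-- The covering number: the least size of a subfamily whose union is `2^ω`. -/
def cov (I : Set (Set Cantor)) : Cardinal := sInf {κ | ∃ S : Set (Set Cantor), S ⊆ I ∧ ⋃₀ S = Set.univ ∧ #S = κ}

/-- The uniformity: the least size of a set of points which is not in `I`. -/
def non (I : Set (Set Cantor)) : Cardinal := sInf {κ | ∃ A : Set Cantor, A ∉ I ∧ #A = κ}

/-- The cofinality: the least size of a subfamily such that every set in `I` is contained in one of its members. -/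
def cof (I : Set (Set Cantor)) : Cardinal :=
  sInf {κ | ∃ S : Set (Set Cantor), S ⊆ I ∧ (∀ A ∈ I, ∃ B ∈ S, A ⊆ B) ∧ #S = κ}

/-- `𝔟`: the least size of a family of functions which is unbounded for `≤*`. -/
def bNum : Cardinal :=
  sInf {κ | ∃ F : Set (ℕ → ℕ), (¬ ∃ g : ℕ → ℕ, ∀ f ∈ F, ∀ᶠ n in atTop, f n ≤ g n) ∧ #F = κ}

/-- `𝔡`: the least size of a family of functions which is dominating for `≤*`. -/
def dNum : Cardinal :=
  sInf {κ | ∃ F : Set (ℕ → ℕ), (∀ g : ℕ → ℕ, ∃ f ∈ F, ∀ᶠ n in atTop, g n ≤ f n) ∧ #F = κ}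

/-! ### The number `𝔟_b^eq` -/

/-- The partitions `⟨J n : n < ω⟩` of `ω` into finite nonempty intervals. -/
structure IntervalPartition where
  /-- the intervals -/
  J : ℕ → Set ℕ
  finite : ∀ n, (J n).Finite
  nonempty : ∀ n, (J n).Nonempty
  interval : ∀ n, (J n).OrdConnected
  disjoint : ∀ m n, m ≠ n → Disjoint (J m) (J n)
  cover : ⋃ n, J n = Set.univ

/-- `∏ b`. -/
abbrev Prodb (b : ℕ → ℕ) : Type := (n : ℕ) → Fin (b n)

/-- `f ⊏ (J, h)`: for all but finitely many `n` there is `k ∈ J n` with `f k = h k`. -/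
def Captured {b : ℕ → ℕ} (f : Prodb b) (P : IntervalPartition) (h : Prodb b) : Prop :=
  ∀ᶠ n in atTop, ∃ k ∈ P.J n, f k = h k

/-- `𝔟_b^eq`: the least size of a subset of `∏ b` not all of whose elements are captured by one `(J, h)`. -/
def bEq (b : ℕ → ℕ) : Cardinal :=
  sInf {κ | ∃ F : Set (Prodb b), (¬ ∃ (P : IntervalPartition) (h : Prodb b), ∀ f ∈ F, Captured f P h) ∧ #F = κ}

/-- The chain of the question, for the function `b`. -/
def Chain (b : ℕ → ℕ) : Prop :=
  ℵ₁ < add nullIdeal ∧ add nullIdeal < cov nullIdeal ∧ cov nullIdeal < bEq b ∧ bEq b < bNum ∧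
    bNum < non closedNullIdeal ∧ non closedNullIdeal < non meagerIdeal ∧ non meagerIdeal < cov meagerIdeal ∧
    cov meagerIdeal < dNum ∧ dNum < non nullIdeal ∧ non nullIdeal < cof nullIdeal

/-! ### The proof -/

/-- A map from `2^ω` to `ω^ω` that reads the value at `k` from the coordinates `pair k j`, `j < b k - 1`. -/
def read (b : ℕ → ℕ) (x : Cantor) (k : ℕ) : ℕ := ((Finset.range (b k - 1)).filter fun j => x (Nat.pair k j) = true).card

lemma read_lt {b : ℕ → ℕ} (hb : ∀ n, 2 ≤ b n) (x : Cantor) (k : ℕ) : read b x k < b k := by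
  have h1 : read b x k ≤ b k - 1 := by
    refine (Finset.card_filter_le _ _).trans ?_
    rw [Finset.card_range]
  have := hb k
  omega

lemma continuous_read (b : ℕ → ℕ) (k : ℕ) : Continuous fun x : Cantor => read b x k := by
  unfold read
  simp_rw [Finset.card_filter]
  refine continuous_finsetSum _ fun j _ => ?_
  have h : (fun x : Cantor => if x (Nat.pair k j) = true then (1 : ℕ) else 0) =
      (fun t : Bool => if t = true then (1 : ℕ) else 0) ∘ fun x : Cantor => x (Nat.pair k j) := rfl
  rw [h]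
  exact continuous_of_discreteTopology.comp (continuous_apply _)

lemma isMeagre_evade {b : ℕ → ℕ} (hb : ∀ n, 2 ≤ b n) (f : Prodb b) :
    IsMeagre {x : Cantor | ∀ᶠ k in atTop, read b x k ≠ f k} := by
  have h : {x : Cantor | ∀ᶠ k in atTop, read b x k ≠ f k} = ⋃ m : ℕ, {x : Cantor | ∀ k ≥ m, read b x k ≠ f k} := by
    ext x
    simp only [mem_ofPred_eq, mem_iUnion, eventually_atTop]
  rw [h]
  refine isMeagre_iUnion fun m => IsNowhereDense.isMeagre ?_
  have hcl : IsClosed {x : Cantor | ∀ k ≥ m, read b x k ≠ f k} := by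
    have h2 : {x : Cantor | ∀ k ≥ m, read b x k ≠ f k} =
        ⋂ k : ℕ, ⋂ _ : m ≤ k, (fun x : Cantor => read b x k) ⁻¹' {v | v ≠ f k} := by
      ext x
      simp
    rw [h2]
    exact isClosed_iInter fun k => isClosed_iInter fun _ =>
      (isClosed_discrete _).preimage (continuous_read b k)
  rw [hcl.isNowhereDense_iff, eq_empty_iff_forall_notMem]
  intro x hx
  obtain ⟨I, u, hu, hsub⟩ := isOpen_pi_iff.1 isOpen_interior x hx
  obtain ⟨N, hN⟩ : ∃ N, ∀ i ∈ I, i < N := ⟨I.sup id + 1, fun i hi => Nat.lt_succ_of_le (Finset.le_sup (f := id) hi)⟩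
  set k := max m N with hk
  let y : Cantor := fun i => if (Nat.unpair i).1 = k then decide ((Nat.unpair i).2 < (f k : ℕ)) else x i
  have hyI : ∀ i ∈ I, y i = x i := by
    intro i hi
    have h1 : (Nat.unpair i).1 ≠ k := by
      intro h2
      have h3 := Nat.unpair_left_le i
      have h4 := hN i hi
      have h5 := le_max_right m N
      omega
    simp only [y, if_neg h1]
  have hy : y ∈ interior {x : Cantor | ∀ k ≥ m, read b x k ≠ f k} := by
    apply hsub
    intro i hi
    rw [hyI i hi]
    exact (hu i hi).2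
  have h1 := interior_subset hy k (le_max_left _ _)
  apply h1
  have h2 : ((Finset.range (b k - 1)).filter fun j => y (Nat.pair k j) = true) = Finset.range (f k : ℕ) := by
    ext j
    have hf := (f k).2
    simp only [y, Nat.unpair_pair, if_true, Finset.mem_filter, Finset.mem_range, decide_eq_true_eq]
    omega
  unfold read
  rw [h2, Finset.card_range]

/-- A family of fewer than `cov(𝓜)` elements of `∏ b` is met infinitely often by one element of `∏ b`. -/
lemma exists_infinitely_equal {b : ℕ → ℕ} (hb : ∀ n, 2 ≤ b n) (F : Set (Prodb b)) (hF : #F < cov meagerIdeal) :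
    ∃ h : Prodb b, ∀ f ∈ F, ∀ m, ∃ k ≥ m, f k = h k := by
  let E : Prodb b → Set Cantor := fun f => {x : Cantor | ∀ᶠ k in atTop, read b x k ≠ f k}
  have h1 : ⋃₀ (E '' F) ≠ Set.univ := by
    intro h
    have h2 : cov meagerIdeal ≤ #(E '' F) := by
      refine csInf_le' ⟨E '' F, ?_, h, rfl⟩
      rintro _ ⟨f, _, rfl⟩
      exact isMeagre_evade hb f
    exact absurd (h2.trans mk_image_le) (not_le.2 hF)
  obtain ⟨x, hx⟩ := (ne_univ_iff_exists_notMem _).1 h1
  refine ⟨fun k => ⟨read b x k, read_lt hb x k⟩, fun f hf m => ?_⟩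
  have h2 : x ∉ E f := fun h => hx ⟨E f, ⟨f, hf, rfl⟩, h⟩
  simp only [E, mem_ofPred_eq, eventually_atTop, not_exists, not_forall, not_not] at h2
  obtain ⟨k, hk, h3⟩ := h2 m
  exact ⟨k, hk, Fin.ext h3.symm⟩

/-- The interval partition given by a strictly increasing sequence that starts at `0`. -/
def ofSeq (e : ℕ → ℕ) (he : StrictMono e) (h0 : e 0 = 0) : IntervalPartition where
  J := fun n => Ico (e n) (e (n + 1))
  finite := fun n => finite_Ico _ _
  nonempty := fun n => nonempty_Ico.2 (he (Nat.lt_succ_self n))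
  interval := fun n => ordConnected_Ico
  disjoint := by
    intro m n hmn
    rw [disjoint_left]
    rintro k ⟨h1, h2⟩ ⟨h3, h4⟩
    rcases lt_or_gt_of_ne hmn with h | h
    · have := he.monotone (Nat.succ_le_of_lt h)
      rw [Nat.succ_eq_add_one] at this
      omega
    · have := he.monotone (Nat.succ_le_of_lt h)
      rw [Nat.succ_eq_add_one] at this
      omega
  cover := by
    rw [eq_univ_iff_forall]
    intro k
    rw [mem_iUnion]
    have hex : ∃ n, k < e (n + 1) := ⟨k, (Nat.lt_succ_self k).trans_le (he.id_le (k + 1))⟩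
    classical
    refine ⟨Nat.find hex, ?_, Nat.find_spec hex⟩
    by_contra hlt
    push Not at hlt
    rcases Nat.eq_zero_or_pos (Nat.find hex) with h | h
    · rw [h, h0] at hlt
      omega
    · obtain ⟨m, hm⟩ := Nat.exists_eq_succ_of_ne_zero h.ne'
      have := Nat.find_min hex (m := m) (by omega)
      rw [hm] at hlt
      exact this hlt

/-- **`min (𝔟, cov(𝓜)) ≤ 𝔟_b^eq`.** -/
theorem min_le_bEq {b : ℕ → ℕ} (hb : ∀ n, 2 ≤ b n) : min bNum (cov meagerIdeal) ≤ bEq b := by
  refine le_csInf ?_ ?_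
  · refine ⟨_, Set.univ, ?_, rfl⟩
    rintro ⟨P, h, hall⟩
    -- a function that differs from `h` everywhere
    let f : Prodb b := fun k => if (h k : ℕ) = 0 then ⟨1, hb k⟩ else ⟨0, lt_of_lt_of_le (by norm_num) (hb k)⟩
    obtain ⟨n, hn⟩ := (hall f (mem_univ _)).exists
    obtain ⟨k, _, hk⟩ := hn
    have h1 := congrArg (fun v : Fin (b k) => (v : ℕ)) hk
    simp only [f] at h1
    split_ifs at h1 with h0
    · simp only at h1
      omega
    · simp only at h1
      omega
  · rintro κ ⟨F, hF, rfl⟩
    by_contra hlt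
    push Not at hlt
    rw [lt_min_iff] at hlt
    apply hF
    obtain ⟨h, hh⟩ := exists_infinitely_equal hb F hlt.2
    classical
    -- the next place of agreement
    let nx : Prodb b → ℕ → ℕ := fun f m => if hm : ∃ k ≥ m, f k = h k then hm.choose else 0
    obtain ⟨g, hg⟩ : ∃ g : ℕ → ℕ, ∀ u ∈ nx '' F, ∀ᶠ n in atTop, u n ≤ g n := by
      by_contra hno
      have h2 : bNum ≤ #(nx '' F) := csInf_le' ⟨nx '' F, hno, rfl⟩
      exact absurd (h2.trans mk_image_le) (not_le.2 hlt.1)
    let e : ℕ → ℕ := fun n => Nat.rec 0 (fun _ v => max v (g v) + 1) n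
    have hes : ∀ n, e (n + 1) = max (e n) (g (e n)) + 1 := fun n => rfl
    have he : StrictMono e := strictMono_nat_of_lt_succ fun n => by
      rw [hes]
      exact Nat.lt_succ_of_le (le_max_left _ _)
    refine ⟨ofSeq e he rfl, h, fun f hf => ?_⟩
    have h3 : ∀ᶠ n in atTop, nx f (e n) ≤ g (e n) := he.tendsto_atTop.eventually (hg _ ⟨f, hf, rfl⟩)
    refine h3.mono fun n hn => ?_
    have h4 := hh f hf (e n)
    have h5 : nx f (e n) = h4.choose := dif_pos h4
    refine ⟨nx f (e n), ⟨?_, ?_⟩, ?_⟩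
    · rw [h5]
      exact h4.choose_spec.1
    · rw [hes]
      exact Nat.lt_succ_of_le (hn.trans (le_max_right _ _))
    · rw [h5]
      exact h4.choose_spec.2

/-- In ZFC, `min (𝔟, cov(𝓜)) ≤ 𝔟_b^eq` for every `b` with `b n ≥ 2` for all `n`; hence for no such `b` the chain of
the question holds. -/
theorem result : (∀ b : ℕ → ℕ, (∀ n, 2 ≤ b n) → min bNum (cov meagerIdeal) ≤ bEq b) ∧
    ¬ ∃ b : ℕ → ℕ, (∀ n, 2 ≤ b n) ∧ Chain b := by
  refine ⟨fun b hb => min_le_bEq hb, ?_⟩
  rintro ⟨b, hb, -, -, -, h1, h2, h3, h4, -, -, -⟩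
  have h5 : bEq b < cov meagerIdeal := (h1.trans h2).trans (h3.trans h4)
  exact absurd (min_le_bEq hb) (not_le.2 (lt_min h1 h5))

end

end Pool.Agent.Results.MP_b3eba0_lc.NoSuchChain
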